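import Pool.Agent.N47.SQ.Rect

/-!
# Flat planes of square complexes which meet exactly in a finite rectangle

Let `X` be a CAT(0) cube complex of dimension at most two, given by its 1-skeleton: a median graph
without 3-cubes.  The flat planes of `X` are the planes tiled by unit squares, i.e. the isometric
embeddings of the grid `ℤ × ℤ` in the median graph.  Let `G` act geometrically on `X` and let `f` be a
flat plane.  The limit flats of `f` are the pointwise limits of the planes `z ↦ g • f (z + b)`.

Theorem: if `G` has no subgroup `ℤ²` then for every `R` there are two limit flats of `f` whose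
intersection is exactly a rectangle with finite sides of lengths at least `R`; each of them is also a
limit flat of the other one.

So if large squares of agreement of two limit flats of `f` are always in unbounded sets of agreement
then `G` contains `ℤ²`.  By moving the origin to the middle of a side, or to a vertex, of larger and
larger rectangles one finds limit flats which separate exactly along a half-plane in each of the
four directions, and limit flats which meet exactly in a quadrant, for each of the four quadrants.

Idea of the proof.  Take a minimal closed invariant family `L` of limit flats.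

* If in `L` a large square determines the square above it, then high vertical strips of a flat are
  periodic and repeat horizontally; the periods of neighbouring strips have a common power as
  stabilisers are finite.  This gives a vertical translation which commutes with a horizontal one.
  A half-space which is moved properly into itself by the horizontal one shows that they generate
  `ℤ²`.  So there are two flats in `L` which separate exactly at a given horizontal or vertical line.
* Copies of a pair which separates to the right, put in a flat which belongs to a pair which separates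
  upwards, propagate upwards until they meet the line of the second pair: this gives pairs in `L`
  which agree on a quadrant and separate at both of its sides.
* Suppose that a pair which agrees on a large square and separates below and to the left always agrees
  on an infinite half-strip.  Put a copy of a south-west corner of separation in a flat `k` of a
  pair which separates at a north-east corner, and copy the two corners together far to the
  south-west in `k`.  The copied flat must agree with `k` beyond the copied north-east corner because of
  the original corner, but not because of the copied corner.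
-/

set_option autoImplicit false

namespace Pool.Agent.Results.MP_140312_al.FiniteRectangles

open Function

/-- Median graphs: connected graphs in which any three vertices `a`, `b`, `c` have exactly one median
`m`, a vertex which is on geodesics between any two of them.  These are exactly the 1-skeletons of
the CAT(0) cube complexes. -/
def IsMedian {V : Type*} (Γ : SimpleGraph V) : Prop :=
  Γ.Connected ∧ ∀ a b c : V, ∃! m : V,
    Γ.dist a m + Γ.dist m b = Γ.dist a b ∧ Γ.dist b m + Γ.dist m c = Γ.dist b c ∧
      Γ.dist a m + Γ.dist m c = Γ.dist a c

/-- The graph contains no 3-cube: for the 1-skeleton of a CAT(0) cube complex this means that the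
dimension of the complex is at most two. -/
def NoThreeCube {V : Type*} (Γ : SimpleGraph V) : Prop :=
  ¬ ∃ c : (Fin 3 → Bool) → V, Injective c ∧ ∀ s i, Γ.Adj (c s) (c (update s i (!s i)))

/-- Flat planes: isometric embeddings of the grid `ℤ × ℤ` in the graph. -/
def IsFlat {V : Type*} (Γ : SimpleGraph V) (f : ℤ × ℤ → V) : Prop :=
  ∀ z w : ℤ × ℤ, (Γ.dist (f z) (f w) : ℤ) = |z.1 - w.1| + |z.2 - w.2|

/-- The limit flats of `f`: the maps which agree on every finite square of the grid with one of the
planes `z ↦ g • f (z + b)`, where `g` is in `G` and `b` is in `ℤ × ℤ`. -/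
def LimitFlats (G : Type*) {V : Type*} [Group G] [MulAction G V] (f : ℤ × ℤ → V) :
    Set (ℤ × ℤ → V) :=
  {h | ∀ R : ℕ, ∃ (g : G) (b : ℤ × ℤ), ∀ z : ℤ × ℤ, |z.1| ≤ R → |z.2| ≤ R → h z = g • f (z + b)}

/-- Let `Γ` be a locally finite median graph without 3-cubes, i.e. the 1-skeleton of a locally finite
CAT(0) cube complex of dimension at most two.  Let `G` act on `Γ` by automorphisms with finite
stabilisers and finitely many orbits of vertices, and suppose that `G` has no subgroup isomorphic to
`ℤ²`.  Then for every flat plane `f` and every `R` there are flat planes `h₁`, `h₂`, which are limit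
flats of `f` and of each other, and `m, n ≥ R` such that `h₁` and `h₂` meet exactly in the rectangle
`[0, m] × [0, n]`, where they agree: `h₁ z = h₂ w` if and only if `z = w` is in this rectangle. -/
theorem result {V : Type*} {Γ : SimpleGraph V} (hΓ : IsMedian Γ) (h3 : NoThreeCube Γ)
    (hfin : ∀ v, (Γ.neighborSet v).Finite)
    {G : Type*} [Group G] [MulAction G V] (haut : ∀ (g : G) (a b : V), Γ.Adj a b → Γ.Adj (g • a) (g • b))
    (hstab : ∀ v : V, {g : G | g • v = v}.Finite)
    (horb : ∃ K : Set V, K.Finite ∧ ∀ v : V, ∃ g : G, g • v ∈ K)
    (hZ : ¬ ∃ φ : Multiplicative (ℤ × ℤ) →* G, Injective φ)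
    (f : ℤ × ℤ → V) (hf : IsFlat Γ f) (R : ℕ) :
    ∃ m n : ℕ, R ≤ m ∧ R ≤ n ∧ ∃ h₁ h₂ : ℤ × ℤ → V, IsFlat Γ h₁ ∧ IsFlat Γ h₂ ∧
      h₁ ∈ LimitFlats G f ∧ h₂ ∈ LimitFlats G f ∧ h₁ ∈ LimitFlats G h₂ ∧ h₂ ∈ LimitFlats G h₁ ∧
      ∀ z w : ℤ × ℤ, h₁ z = h₂ w ↔ z = w ∧ 0 ≤ z.1 ∧ z.1 ≤ m ∧ 0 ≤ z.2 ∧ z.2 ≤ n := by
  have hA : Pool.Agent.N47.SQ.Act G Γ := ⟨hΓ, h3, hfin, haut, hstab, horb⟩
  have hO : ∀ h : ℤ × ℤ → V, Pool.Agent.N47.SQ.Orb G h ⊆ LimitFlats G h := by
    intro h k hk R
    obtain ⟨g, b, hg⟩ := hk R
    refine ⟨g, b, fun z h1 h2 => hg z ?_ ?_⟩
    · rw [Int.abs_eq_natAbs] at h1; omega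
    · rw [Int.abs_eq_natAbs] at h2; omega
  obtain ⟨L, hLf, hL⟩ := (Pool.Agent.N47.SQ.Orb.sys hA hf).exists_min hA
    ⟨f, Pool.Agent.N47.SQ.Orb.self f⟩
  obtain ⟨h, hh, k, hk, a, b, c, d, hab, hcd, hE⟩ :=
    Pool.Agent.N47.SQ.exists_rect hA hL hZ (R := R + 1) (by omega)
  have e1 := hL.sys.mv h hh 1 (a, c)
  have e2 := hL.sys.mv k hk 1 (a, c)
  simp only [one_smul] at e1 e2
  refine ⟨(b - a).toNat, (d - c).toNat, by omega, by omega, _, _, hL.sys.flat _ e1,
    hL.sys.flat _ e2, hO f (hLf e1), hO f (hLf e2), hO _ (hL.min _ e2 e1), hO _ (hL.min _ e1 e2),
    fun z w => ?_⟩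
  rw [hE.main hA.med hA.n3]
  simp only [add_left_inj, Prod.fst_add, Prod.snd_add]
  constructor
  · rintro ⟨h1, h2, h4, h5, h6⟩
    exact ⟨h1, by omega, by omega, by omega, by omega⟩
  · rintro ⟨h1, h2, h4, h5, h6⟩
    exact ⟨h1, by omega, by omega, by omega, by omega⟩

end Pool.Agent.Results.MP_140312_al.FiniteRectangles
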